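import Pool.Agent.Lib.MP_3cd99b_gt.Z4
import Pool.Agent.Lib.MP_3cd99b_gt.Z7

/-!
# The Links-Gould polynomial of every alternating link counts pairs of Kauffman states

Problem MP_3cd99b_gt (unimodality of the Links-Gould coefficients of alternating links).

For every alternating link diagram w (cut open at one point) the Links-Gould polynomial P satisfies
P_ij = (-1)^(i+j+c) N_ij, where N_ij is the number of ordered pairs of Kauffman states of w with exponents (i, j):
the sign rule for all alternating links, and a positive, subtraction free formula for the array |P_ij| of the
question.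

The objects:
* Piece, IsTangle, stateSum, IsLinksGould (namespace LG3, file D0): oriented (1,1)-tangle diagrams and the state sum
  of the De Wit-Kauffman-Links R-matrix;
* hist w [0] (namespace LG3P, file Z1): the pairs of Kauffman states of w, read from left to right. A content is a
  set of labels (a number 0, 1, 2, 3 read as a subset of {1, 2}): label x in the content of a region means that the
  region is not yet marked by the state x. A crossing is marked by each of the two states in one of its four corners
  L, R, T, B (mks); turns (cup, cap) create, split and merge regions (op0). Each pair carries a sign and the exponents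
  of t0 = α^2 and t1 = β^2, one factor for each crossing (wx, opX);
* AltDiagram e w: at each crossing the same colour class of regions (by the parity of the position) lies to the left
  of the over strand: the crossing of the strands k, k+1 is positive iff (k is even iff e is true).
-/

namespace Pool.Agent.Results.MP_3cd99b_gt.AlternatingStates

open LG3 LG3P

/-- alternating diagrams: the crossings of the strands k, k+1 have the sign e for even k, the sign not e for odd k -/
def AltDiagram (e : Bool) (w : List Piece) : Prop :=
  ∀ k s, Piece.cross k s ∈ w → s = (e ^^ decide (k % 2 = 1))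

/-- the number of pairs of Kauffman states with exponents (i, j) -/
def pairs (w : List Piece) (i j : ℤ) : ℕ := (hist w [0]).countP fun t => t.2 = (i, j)

/-- Every alternating diagram has exactly one Links-Gould polynomial P, and up to the sign (-1)^(i+j+c) its
coefficients are the numbers of pairs of Kauffman states. -/
theorem result : ∀ (e : Bool) (w : List Piece), IsTangle w → AltDiagram e w → ∃ (P : ℤ × ℤ →₀ ℤ) (c : ℤ),
    (∀ Q : ℤ × ℤ →₀ ℤ, IsLinksGould w Q ↔ Q = P) ∧
      (∀ i j : ℤ, P (i, j) = (((i + j + c).negOnePow : ℤˣ) : ℤ) * (pairs w i j : ℤ)) ∧
      (∀ i j : ℤ, P (i, j) ≠ 0 → (0 < P (i, j) ↔ Even (i + j + c))) := by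
  intro e w hw ha
  obtain ⟨c, hc⟩ := hist_alt e w hw ha
  have h1 : ∀ i j : ℤ, polyOf (hist w [0]) (i, j) = (((i + j + c).negOnePow : ℤˣ) : ℤ) * (pairs w i j : ℤ) :=
    fun i j => polyOf_sign (hist w [0]) c hc (i, j)
  refine ⟨polyOf (hist w [0]), c, isLinksGould_iff_eq w hw, h1, fun i j hij => ?_⟩
  have h2 : (0 : ℤ) < (pairs w i j : ℤ) := by
    rcases Nat.eq_zero_or_pos (pairs w i j) with h3 | h3
    · exact absurd (by rw [h1, h3]; simp) hij
    · exact_mod_cast h3
  rw [h1]
  rcases Int.even_or_odd (i + j + c) with h4 | h4
  · rw [Int.negOnePow_even _ h4]
    simp only [Units.val_one, one_mul, h2, h4]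
  · rw [Int.negOnePow_odd _ h4]
    have h5 : ¬ Even (i + j + c) := Int.not_even_iff_odd.mpr h4
    simp only [h5, iff_false]
    push_cast
    linarith

end Pool.Agent.Results.MP_3cd99b_gt.AlternatingStates
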