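import Pool.Agent.Lib.MP_3cd99b_gt.Nr5

/-!
# The support of the Links-Gould polynomial of every alternating diagram

Problem MP_3cd99b_gt (unimodality of the Links-Gould coefficients of alternating links).

Let w be an alternating link diagram, reduced or not, cut open at one point. The Links-Gould polynomial P of w is 0 if
the diagram is not connected. If it is connected, the support of P is the set of all lattice points of an octagon
-r' <= i, j <= r, -n <= i + j <= p, |i - j| <= d,
and every bound is attained. If w is reduced, with p positive and n negative crossings and s Seifert circles, these are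
the p, n of the octagon, d = p + n + 1 - s, and r, r' are explicit numbers of positive and of negative crossings. The
array |P_ij| has no interior zeros, and P_ij has the sign (-1)^(i+j+c).

The objects:
* Piece, IsTangle, stateSum, IsLinksGould, NoInteriorZeros (namespace LG3, file D0): oriented (1,1)-tangle diagrams,
  the state sum of the De Wit-Kauffman-Links R-matrix, the property of the problem;
* AltDiagram e w: alternating diagrams: at each crossing the same colour class of regions (by the parity of the
  position) lies to the left of the over strand: the crossing of the strands k, k+1 is positive iff (k is even iff e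
  is true);
* all other objects are defined in the file W0, in plain terms of the word w:
  PL.Reduced w: at every crossing the regions before and behind it are different: a function h that is constant on the
  regions (PL.IsGap; h t g is the value at the gap above the strand g in the slice t) takes different values there.
  The regions above and below a crossing are always different, since both strands run forward; so this says that no
  crossing is nugatory;
  crossings s w: the number of crossings of sign s;
  seifert w: the number of Seifert circles: positions (slice, strand) up to the steps of the walk mv along the smoothed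
  diagram: every crossing is passed on the same level; strands with an even number are walked to the left, those with
  an odd number to the right; from the left end the walk jumps to the right end;
  Connected w: a function on the positions that is constant along the Seifert circles and takes equal values at the two
  strands of every crossing is constant;
  TotallyCyclic w s O: the orientation O of the Seifert graph of the crossings of sign s (vertices: Seifert circles,
  edges: crossings of sign s, O t = true directs the crossing t from the circle of its odd strand to the circle of its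
  even strand) is totally cyclic: every set of circles which is entered by a crossing of sign s is left by one;
  rmax w s: the greatest number of crossings t of sign s with O t = true in such an orientation; for a reduced w,
  r = rmax w true, r' = rmax w false.
-/

namespace Pool.Agent.Results.MP_3cd99b_gt.AlternatingSupport

open LG3 LG3P LG3P.Wo

/-- alternating diagrams: the crossings of the strands k, k+1 have the sign e for even k, the sign not e for odd k -/
def AltDiagram (e : Bool) (w : List Piece) : Prop :=
  ∀ k s, Piece.cross k s ∈ w → s = (e ^^ decide (k % 2 = 1))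

/-- Every alternating diagram has exactly one Links-Gould polynomial P. It is 0 if the diagram is not connected. If the
diagram is connected, the support of P is the set of the lattice points of an octagon, and every bound of the octagon
is attained; for a reduced diagram the octagon is explicit. The coefficients have the signs (-1)^(i+j+c); there are no
interior zeros. -/
theorem result : ∀ (e : Bool) (w : List Piece), IsTangle w → AltDiagram e w →
    ∃ (P : ℤ × ℤ →₀ ℤ) (c : ℤ),
      (∀ Q : ℤ × ℤ →₀ ℤ, IsLinksGould w Q ↔ Q = P) ∧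
      (¬ Connected w → P = 0) ∧
      (Connected w → ∃ r r' p n d : ℕ,
        (∀ i j : ℤ, P (i, j) ≠ 0 ↔
          (-(r' : ℤ) ≤ i ∧ i ≤ r ∧ -(r' : ℤ) ≤ j ∧ j ≤ r ∧ -(n : ℤ) ≤ i + j ∧ i + j ≤ p ∧ |i - j| ≤ d)) ∧
        (∃ i j : ℤ, P (i, j) ≠ 0 ∧ i + j = p) ∧
        (∃ i j : ℤ, P (i, j) ≠ 0 ∧ i + j = -(n : ℤ)) ∧
        (∃ i j : ℤ, P (i, j) ≠ 0 ∧ i - j = d) ∧
        (∃ i j : ℤ, P (i, j) ≠ 0 ∧ i = r) ∧
        (∃ i j : ℤ, P (i, j) ≠ 0 ∧ i = -(r' : ℤ)) ∧
        (PL.Reduced w → r = rmax w true ∧ r' = rmax w false ∧ p = crossings true w ∧ n = crossings false w ∧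
          (d : ℤ) = crossings true w + crossings false w + 1 - seifert w)) ∧
      (∀ i j : ℤ, P (i, j) ≠ 0 → (0 < P (i, j) ↔ Even (i + j + c))) ∧
      NoInteriorZeros {z | P z ≠ 0} := by
  intro e w hw ha
  obtain ⟨c, hc⟩ := hist_alt e w hw ha
  have hP : IsLinksGould w (polyOf (hist w [0])) := (isLinksGould_iff_eq w hw _).mpr rfl
  have main : Connected w → ∃ r r' p n d : ℕ,
        (∀ i j : ℤ, polyOf (hist w [0]) (i, j) ≠ 0 ↔
          (-(r' : ℤ) ≤ i ∧ i ≤ r ∧ -(r' : ℤ) ≤ j ∧ j ≤ r ∧ -(n : ℤ) ≤ i + j ∧ i + j ≤ p ∧ |i - j| ≤ d)) ∧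
        (∃ i j : ℤ, polyOf (hist w [0]) (i, j) ≠ 0 ∧ i + j = p) ∧
        (∃ i j : ℤ, polyOf (hist w [0]) (i, j) ≠ 0 ∧ i + j = -(n : ℤ)) ∧
        (∃ i j : ℤ, polyOf (hist w [0]) (i, j) ≠ 0 ∧ i - j = d) ∧
        (∃ i j : ℤ, polyOf (hist w [0]) (i, j) ≠ 0 ∧ i = r) ∧
        (∃ i j : ℤ, polyOf (hist w [0]) (i, j) ≠ 0 ∧ i = -(r' : ℤ)) ∧
        (PL.Reduced w → r = rmax w true ∧ r' = rmax w false ∧ p = crossings true w ∧ n = crossings false w ∧
          (d : ℤ) = crossings true w + crossings false w + 1 - seifert w) := by
    intro h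
    by_cases hr : PL.Reduced w
    · obtain ⟨h1, h2, h3, h4, h5, h6⟩ := octagon_conn hw ha hr _ hP h
      unfold Octagon at h1
      obtain ⟨d, hd⟩ : ∃ d : ℕ, (d : ℤ) = crossings true w + crossings false w + 1 - seifert w := by
        obtain ⟨i, j, g1, g2⟩ := h4
        have g3 := ((h1 i j).mp g1).2.2.2.2.2.2
        exact ⟨_, Int.toNat_of_nonneg ((abs_nonneg _).trans g3)⟩
      rw [← hd] at h4
      refine ⟨_, _, _, _, d, fun i j => ?_, h2, h3, h4, h5, h6, fun _ => ⟨rfl, rfl, rfl, rfl, hd⟩⟩
      rw [h1, hd]
    · obtain ⟨r, r', p, n, d1, d2, h1, h2, h3⟩ := good_conn hw ha _ hP h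
      have h4 : ∀ i j : ℤ, polyOf (hist w [0]) (i, j) ≠ 0 ↔ PoolLib.MP_3cd99b_gt.Dm.InOct r r' p n (d1 + d2) i j :=
        fun i j => h3 i j
      have k1 := h1
      have k2 := h2
      unfold LG3P.R4.Adm at k1 k2
      have att : (∃ a b, PoolLib.MP_3cd99b_gt.Dm.InOct r r' p n (d1 + d2) a b ∧ a + b = p) ∧
          (∃ a b, PoolLib.MP_3cd99b_gt.Dm.InOct r r' p n (d1 + d2) a b ∧ a + b = -n) ∧
          (∃ a b, PoolLib.MP_3cd99b_gt.Dm.InOct r r' p n (d1 + d2) a b ∧ a - b = (d1 + d2)) ∧
          (∃ a b, PoolLib.MP_3cd99b_gt.Dm.InOct r r' p n (d1 + d2) a b ∧ a = r) ∧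
          (∃ a b, PoolLib.MP_3cd99b_gt.Dm.InOct r r' p n (d1 + d2) a b ∧ a = -r') := by
        by_cases hpn : 1 ≤ p + n
        · exact PoolLib.MP_3cd99b_gt.Dm.inOct_attained _ _ _ _ _ _ _ h1 h2 rfl hpn
        · simp only [PoolLib.MP_3cd99b_gt.Dm.InOct, abs_le]
          exact ⟨⟨0, 0, by omega⟩, ⟨0, 0, by omega⟩, ⟨0, 0, by omega⟩, ⟨0, 0, by omega⟩, ⟨0, 0, by omega⟩⟩
      simp only [← h4] at att
      obtain ⟨r₀, hr₀⟩ : ∃ x : ℕ, (x : ℤ) = r := ⟨_, Int.toNat_of_nonneg (by omega)⟩
      obtain ⟨r₁, hr₁⟩ : ∃ x : ℕ, (x : ℤ) = r' := ⟨_, Int.toNat_of_nonneg (by omega)⟩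
      obtain ⟨p₀, hp₀⟩ : ∃ x : ℕ, (x : ℤ) = p := ⟨_, Int.toNat_of_nonneg (by omega)⟩
      obtain ⟨n₀, hn₀⟩ : ∃ x : ℕ, (x : ℤ) = n := ⟨_, Int.toNat_of_nonneg (by omega)⟩
      obtain ⟨d₀, hd₀⟩ : ∃ x : ℕ, (x : ℤ) = d1 + d2 := ⟨_, Int.toNat_of_nonneg (by omega)⟩
      refine ⟨r₀, r₁, p₀, n₀, d₀, fun i j => ?_, ?_, ?_, ?_, ?_, ?_, fun h => absurd h hr⟩
      · rw [h4, hr₀, hr₁, hp₀, hn₀, hd₀]
        unfold PoolLib.MP_3cd99b_gt.Dm.InOct
        constructor
        · rintro ⟨g1, g2, g3, g4, g5, g6, g7⟩
          exact ⟨g2, g1, g4, g3, g6, g5, g7⟩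
        · rintro ⟨g1, g2, g3, g4, g5, g6, g7⟩
          exact ⟨g2, g1, g4, g3, g6, g5, g7⟩
      · rw [hp₀]; exact att.1
      · rw [hn₀]; exact att.2.1
      · rw [hd₀]; exact att.2.2.1
      · rw [hr₀]; exact att.2.2.2.1
      · rw [hr₁]; exact att.2.2.2.2
  refine ⟨polyOf (hist w [0]), c, isLinksGould_iff_eq w hw, fun h => zero_of_split e hw ha _ hP h, main,
    fun i j hij => ?_, ?_⟩
  · have h1 := polyOf_sign (hist w [0]) c hc (i, j)
    have h2 : (0 : ℤ) < ((hist w [0]).countP fun t => t.2 = (i, j) : ℕ) := by
      rcases Nat.eq_zero_or_pos ((hist w [0]).countP fun t => t.2 = (i, j)) with h3 | h3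
      · exact absurd (by rw [h1, h3]; simp) hij
      · exact_mod_cast h3
    rw [h1]
    rcases Int.even_or_odd (i + j + c) with h4 | h4
    · rw [Int.negOnePow_even _ h4]
      simp only [Units.val_one, one_mul, h2, h4]
    · rw [Int.negOnePow_odd _ h4]
      have h5 : ¬ Even (i + j + c) := Int.not_even_iff_odd.mpr h4
      simp only [h5, iff_false]
      push_cast
      linarith
  · by_cases h : Connected w
    · obtain ⟨r, r', p, n, d, h1, -⟩ := main h
      exact noInterior_oct _ r r' p n d fun z => h1 z.1 z.2
    · have : {z | polyOf (hist w [0]) z ≠ 0} = (∅ : Set (ℤ × ℤ)) := by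
        ext z
        simp [zero_of_split e hw ha _ hP h]
      rw [this]
      exact noInterior_empty

end Pool.Agent.Results.MP_3cd99b_gt.AlternatingSupport
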