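import Pool.Agent.Lib.MP_3cd99b_gt.CS.Two
import Pool.Agent.Lib.MP_3cd99b_gt.CS.Tor
import Pool.Agent.Lib.MP_3cd99b_gt.CS.Ins

/-!
Two-dimensional unimodality of the Links-Gould polynomials of all connected sums of double twist knots,
antiparallel (2, 2b)-torus links and their mirror images; the class of polynomials with the exchange inequalities is
closed under connected sums, and its members are unimodal.
-/

namespace Pool.Agent.Results.MP_3cd99b_gt.ConnectedSums

open LG3 LG3.CS

/-- the signs of the coefficients alternate -/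
def SignRule (P : ℤ × ℤ →₀ ℤ) : Prop :=
  ∃ e : ℤ, (e = 1 ∨ e = -1) ∧ ∀ z, (Even (z.1 + z.2) → 0 ≤ e * P z) ∧ (¬ Even (z.1 + z.2) → e * P z ≤ 0)

/-- the exchange inequalities for the absolute values of the coefficients (discrete log-concavity) -/
def Exchange (P : ℤ × ℤ →₀ ℤ) : Prop :=
  ∀ x y : ℤ × ℤ,
    (x.1 < y.1 → y.2 - x.2 < y.1 - x.1 → |P x| * |P y| ≤ |P (x + (1, 0))| * |P (y - (1, 0))|) ∧
    (x.2 < y.2 → y.1 - x.1 < y.2 - x.2 → |P x| * |P y| ≤ |P (x + (0, 1))| * |P (y - (0, 1))|) ∧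
    (x.1 < y.1 → x.2 < y.2 → |P x| * |P y| ≤ |P (x + (1, 1))| * |P (y - (1, 1))|)

/-- The smallest class of diagrams (cut open at one point) which contains the diagrams of the double twist knots
C(2m+2, 2n), n >= 1, of the torus links T(2, 2b+2) with antiparallel strands, and of their mirror images, and every
diagram with a Links-Gould polynomial that has the sign rule and the exchange inequalities, and which is closed under
connected sums: w' inserted into w1 ++ w2, after w1, at a forward strand, the one with the number A.length. -/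
inductive SumDiagram : List Piece → Prop
  | twist (s : Bool) (m n : ℕ) (hn : 1 ≤ n) : SumDiagram (pretzelDiagram [(m, s), (0, s), (n, !s)])
  | torus (s : Bool) (b : ℕ) : SumDiagram (pretzelDiagram [(0, s), (b, s)])
  | other (w : List Piece) (P : ℤ × ℤ →₀ ℤ) (hP : IsLinksGould w P) (hs : SignRule P) (he : Exchange P) :
      SumDiagram w
  | sum (w1 w2 w' : List Piece) (A B : List Bool) (hd : dirs w1 [true] = some (A ++ true :: B))
      (h : SumDiagram (w1 ++ w2)) (h' : SumDiagram w') :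
      SumDiagram (w1 ++ (w'.map (shiftPiece A.length) ++ w2))

theorem exchange_iff (P : ℤ × ℤ →₀ ℤ) : Exchange P ↔ LM fun z => |((P z : ℤ) : ℝ)| := by
  have c : ∀ a b c d : ℤ, |a| * |b| ≤ |c| * |d| ↔ |(a : ℝ)| * |(b : ℝ)| ≤ |(c : ℝ)| * |(d : ℝ)| := by
    intro a b c d
    exact_mod_cast Iff.rfl
  constructor
  · intro h
    refine ⟨fun z => abs_nonneg _, fun i x y hc => ?_⟩
    obtain ⟨h0, h1, h2⟩ := h x y
    fin_cases i
    · have hc' : 0 < (y - x).1 ∧ (y - x).2 < (y - x).1 := hc
      rw [Prod.fst_sub, Prod.snd_sub] at hc'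
      exact (c _ _ _ _).mp (h0 (by omega) (by omega))
    · have hc' : 0 < (y - x).2 ∧ (y - x).1 < (y - x).2 := hc
      rw [Prod.fst_sub, Prod.snd_sub] at hc'
      exact (c _ _ _ _).mp (h1 (by omega) (by omega))
    · have hc' : 0 < (y - x).1 ∧ 0 < (y - x).2 := hc
      rw [Prod.fst_sub, Prod.snd_sub] at hc'
      exact (c _ _ _ _).mp (h2 (by omega) (by omega))
  · intro h x y
    refine ⟨fun h1 h2 => (c _ _ _ _).mpr (h.ex 0 x y ?_), fun h1 h2 => (c _ _ _ _).mpr (h.ex 1 x y ?_),
      fun h1 h2 => (c _ _ _ _).mpr (h.ex 2 x y ?_)⟩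
    · show 0 < (y - x).1 ∧ (y - x).2 < (y - x).1
      rw [Prod.fst_sub, Prod.snd_sub]
      omega
    · show 0 < (y - x).2 ∧ (y - x).1 < (y - x).2
      rw [Prod.fst_sub, Prod.snd_sub]
      omega
    · show 0 < (y - x).1 ∧ 0 < (y - x).2
      rw [Prod.fst_sub, Prod.snd_sub]
      omega

theorem good_iff (P : ℤ × ℤ →₀ ℤ) : Good P ↔ SignRule P ∧ Exchange P := by
  rw [exchange_iff]
  have hs : (∃ e : ℤ, (e = 1 ∨ e = -1) ∧ ∀ z, 0 ≤ e * sg z * P z) ↔ SignRule P := by
    refine exists_congr fun e => and_congr_right fun _ => forall_congr' fun z => ?_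
    unfold sg
    by_cases hz : Even (z.1 + z.2)
    · rw [if_pos hz, mul_one]
      exact ⟨fun h => ⟨fun _ => h, fun h' => absurd hz h'⟩, fun h => h.1 hz⟩
    · rw [if_neg hz]
      constructor
      · intro h
        exact ⟨fun h' => absurd h' hz, fun _ => by linarith⟩
      · intro h
        have := h.2 hz
        linarith
  exact ⟨fun h => ⟨hs.mp h.sr, h.lm⟩, fun h => ⟨hs.mpr h.1, h.2⟩⟩

theorem good_sum {w : List Piece} (h : SumDiagram w) : ∃ P, IsLinksGould w P ∧ Good P := by
  induction h with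
  | twist s m n hn =>
    refine ⟨_, ?_, (good_two m n hn).mir s⟩
    rw [isLinksGould_iff, pretzelDiagram_eq]
    exact lg_neg s m n
  | torus s b =>
    refine ⟨_, ?_, (good_tor b).mir s⟩
    rw [isLinksGould_iff, pretzelDiagram_eq]
    exact lg_tor s b
  | other w P hP hs he => exact ⟨P, hP, (good_iff P).mpr ⟨hs, he⟩⟩
  | sum w1 w2 w' A B hd _ _ ih ih' =>
    obtain ⟨P, hP, gP⟩ := ih
    obtain ⟨Q, hQ, gQ⟩ := ih'
    exact ⟨_, ins hd hP hQ, gP.mul gQ⟩

/-- Every diagram w of the class has a Links-Gould polynomial P, it is the only one, its coefficients are unimodal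
in absolute value, they alternate in sign and have the exchange inequalities. -/
theorem result : ∀ w : List Piece, SumDiagram w →
    ∃ P : ℤ × ℤ →₀ ℤ, (∀ Q : ℤ × ℤ →₀ ℤ, IsLinksGould w Q ↔ Q = P) ∧ Unimodal P ∧ SignRule P ∧ Exchange P := by
  intro w hw
  obtain ⟨P, hP, gP⟩ := good_sum hw
  refine ⟨P, fun Q => ⟨fun hQ => ?_, fun h => h ▸ hP⟩, gP.unimodal, (good_iff P).mp gP⟩
  exact ((isLinksGould_iff w Q).mp hQ).unique ((isLinksGould_iff w P).mp hP)

end Pool.Agent.Results.MP_3cd99b_gt.ConnectedSums
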