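import Pool.Agent.Lib.MP_3cd99b_gt.Main
import Pool.Agent.Lib.MP_3cd99b_gt.Unq
import Pool.Agent.Lib.MP_3cd99b_gt.Bridge

/-!
Two-dimensional unimodality of the Links-Gould polynomials of the alternating knots of genus one.
By the classical classification (not formalised here) the alternating knots of genus one are the knots
presented by the diagrams below.
-/

namespace Pool.Agent.Results.MP_3cd99b_gt.GenusOne

open LG3

/-- the diagrams, cut open at one point, of the alternating knots of genus one:
the pretzel knots P(2a+1, 2b+1, 2c+1), and the two-bridge knots C(2m+2, 2n) = P(2m+1, 1, -(2n+1)), n >= 1,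
with their mirror images -/
def GenusOneDiagram (w : List Piece) : Prop :=
  ∃ s : Bool, (∃ a b c : ℕ, w = pretzelDiagram [(a, s), (b, s), (c, s)]) ∨
    ∃ m n : ℕ, 1 ≤ n ∧ w = pretzelDiagram [(m, s), (0, s), (n, !s)]

/-- Each of these diagrams has a Links-Gould polynomial P, it is the only one, and its coefficients are
unimodal in absolute value. -/
theorem result : ∀ w : List Piece, GenusOneDiagram w →
    ∃ P : ℤ × ℤ →₀ ℤ, (∀ Q : ℤ × ℤ →₀ ℤ, IsLinksGould w Q ↔ Q = P) ∧ Unimodal P := by
  intro w hw
  have key : ∃ P, IsLGold w P ∧ Unimodal P := by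
    obtain ⟨s, ⟨a, b, c, rfl⟩ | ⟨m, n, hn, rfl⟩⟩ := hw
    · rw [pretzelDiagram_eq]
      exact main_pos s a b c
    · rw [pretzelDiagram_eq]
      exact main_neg s m n hn
  obtain ⟨P, hP, hu⟩ := key
  refine ⟨P, fun Q => ⟨fun hQ => ((isLinksGould_iff w Q).mp hQ).unique hP, fun h => ?_⟩, hu⟩
  rw [h, isLinksGould_iff]
  exact hP

end Pool.Agent.Results.MP_3cd99b_gt.GenusOne
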